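import Pool.Agent.W645.WV.Stm

set_option autoImplicit false

open MeasureTheory Set Complex Filter Topology

namespace Pool.Agent.W382.WV.PU2

open Pool.Agent.W645.WV

/-- smooth, zero outside `[a, b]` -/
def Sm (a b : ℝ) (θ : ℝ → ℂ) : Prop := ContDiff ℝ (⊤ : ℕ∞) θ ∧ ∀ y, y ∉ Icc a b → θ y = 0

/-- the parameters are admissible -/
def Ad (a b κ : ℝ) : Prop := 1 / 2 ≤ κ + 4 * Real.pi ^ 2 * a ∧ κ ≤ 1 ∧ b ≤ 16

noncomputable def F (θ : ℝ → ℂ) (ρ κ : ℝ) (y : ℝ) : ℂ :=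
  θ y * (((κ + 4 * Real.pi ^ 2 * y) ^ ρ : ℝ) : ℂ)

theorem ev_zero {a b : ℝ} {θ : ℝ → ℂ} (h : Sm a b θ) {y : ℝ} (hy : y ∉ Icc a b) :
    θ =ᶠ[𝓝 y] fun _ => 0 := by
  filter_upwards [isClosed_Icc.isOpen_compl.mem_nhds hy] with z hz
  exact h.2 z hz

theorem sm_deriv {a b : ℝ} {θ : ℝ → ℂ} (h : Sm a b θ) : Sm a b (deriv θ) := by
  refine ⟨(contDiff_infty_iff_deriv.1 h.1).2, fun y hy => ?_⟩
  rw [(ev_zero h hy).deriv_eq]
  simp

theorem pos {a b κ y : ℝ} (hA : Ad a b κ) (hy : y ∈ Icc a b) :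
    1 / 2 ≤ κ + 4 * Real.pi ^ 2 * y := by
  have h1 : 4 * Real.pi ^ 2 * a ≤ 4 * Real.pi ^ 2 * y := by
    have := hy.1
    gcongr
  linarith [hA.1]

theorem F_ev_zero {a b : ℝ} {θ : ℝ → ℂ} (h : Sm a b θ) (ρ κ : ℝ) {y : ℝ} (hy : y ∉ Icc a b) :
    F θ ρ κ =ᶠ[𝓝 y] fun _ => 0 := by
  filter_upwards [ev_zero h hy] with z hz
  simp [F, hz]

theorem F_cd {a b : ℝ} {θ : ℝ → ℂ} (h : Sm a b θ) (ρ κ : ℝ) (hA : Ad a b κ) :
    ContDiff ℝ (⊤ : ℕ∞) (F θ ρ κ) := by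
  rw [contDiff_iff_contDiffAt]
  intro y
  by_cases hy : y ∈ Icc a b
  · have hp := pos hA hy
    have h1 : ContDiffAt ℝ (⊤ : ℕ∞) (fun y : ℝ => (κ + 4 * Real.pi ^ 2 * y) ^ ρ) y := by
      apply ContDiffAt.rpow_const_of_ne _ (by linarith)
      fun_prop
    exact h.1.contDiffAt.mul (ofRealCLM.contDiff.contDiffAt.comp y h1)
  · exact contDiffAt_const.congr_of_eventuallyEq (F_ev_zero h ρ κ hy)

theorem F_deriv {a b : ℝ} {θ : ℝ → ℂ} (h : Sm a b θ) (ρ κ : ℝ) (hA : Ad a b κ) :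
    deriv (F θ ρ κ) = fun y => F (deriv θ) ρ κ y +
      ((4 * Real.pi ^ 2 * ρ : ℝ) : ℂ) * F θ (ρ - 1) κ y := by
  funext y
  by_cases hy : y ∈ Icc a b
  · have hp := pos hA hy
    have h1 : HasDerivAt (fun y : ℝ => (κ + 4 * Real.pi ^ 2 * y) ^ ρ)
        (4 * Real.pi ^ 2 * ρ * (κ + 4 * Real.pi ^ 2 * y) ^ (ρ - 1)) y := by
      have h0 : HasDerivAt (fun y : ℝ => κ + 4 * Real.pi ^ 2 * y) (4 * Real.pi ^ 2) y := by
        simpa using ((hasDerivAt_id y).const_mul (4 * Real.pi ^ 2)).const_add κ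
      exact h0.rpow_const (Or.inl (by linarith))
    have h2 : HasDerivAt θ (deriv θ y) y :=
      ((contDiff_infty_iff_deriv.1 h.1).1 y).hasDerivAt
    have h3 := h2.mul h1.ofReal_comp
    have h4 : deriv (F θ ρ κ) y = _ := h3.deriv
    rw [h4]
    simp only [F]
    push_cast
    ring
  · rw [(F_ev_zero h ρ κ hy).deriv_eq]
    have e1 := (F_ev_zero (sm_deriv h) ρ κ hy).eq_of_nhds
    have e2 := (F_ev_zero h (ρ - 1) κ hy).eq_of_nhds
    rw [e1, e2]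
    simp

theorem F_bd (k : ℕ) : ∀ (a b : ℝ) (θ : ℝ → ℂ), Sm a b θ → ∀ ρ : ℝ, ∃ N : ℝ, 0 ≤ N ∧
    ∀ κ, Ad a b κ → ∀ y, ‖iteratedDeriv k (F θ ρ κ) y‖ ≤ N := by
  induction k with
  | zero =>
    intro a b θ h ρ
    have hcs : HasCompactSupport θ := HasCompactSupport.intro isCompact_Icc (fun y hy => h.2 y hy)
    obtain ⟨B, hB⟩ := h.1.continuous.bounded_above_of_compact_support hcs
    have hB0 : 0 ≤ B := (norm_nonneg _).trans (hB 0)
    set W := 1 + 4 * Real.pi ^ 2 * 16 with hW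
    refine ⟨B * ((1 / 2 : ℝ) ^ ρ + W ^ ρ), by positivity, ?_⟩
    intro κ hA y
    rw [iteratedDeriv_zero]
    by_cases hy : y ∈ Icc a b
    · have hp := pos hA hy
      have hW2 : κ + 4 * Real.pi ^ 2 * y ≤ W := by
        have h1 : 4 * Real.pi ^ 2 * y ≤ 4 * Real.pi ^ 2 * 16 := by
          have := hy.2.trans hA.2.2
          gcongr
        linarith [hA.2.1]
      have hpow : (κ + 4 * Real.pi ^ 2 * y) ^ ρ ≤ (1 / 2 : ℝ) ^ ρ + W ^ ρ := by
        rcases le_total 0 ρ with hρ | hρ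
        · have := Real.rpow_le_rpow (by linarith) hW2 hρ
          have h2 : 0 ≤ (1 / 2 : ℝ) ^ ρ := by positivity
          linarith
        · have := Real.rpow_le_rpow_of_nonpos (by norm_num) hp hρ
          have h2 : 0 ≤ W ^ ρ := by positivity
          linarith
      have hnn : 0 ≤ (κ + 4 * Real.pi ^ 2 * y) ^ ρ := Real.rpow_nonneg (by linarith) _
      rw [F, norm_mul, norm_real, Real.norm_eq_abs, abs_of_nonneg hnn]
      exact mul_le_mul (hB y) hpow hnn hB0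
    · rw [(F_ev_zero h ρ κ hy).eq_of_nhds]
      simp only [norm_zero]
      positivity
  | succ k ih =>
    intro a b θ h ρ
    obtain ⟨N1, hN1, h1⟩ := ih a b (deriv θ) (sm_deriv h) ρ
    obtain ⟨N2, hN2, h2⟩ := ih a b θ h (ρ - 1)
    refine ⟨N1 + |4 * Real.pi ^ 2 * ρ| * N2, by positivity, ?_⟩
    intro κ hA y
    rw [iteratedDeriv_succ', F_deriv h ρ κ hA]
    have c1 : ContDiffAt ℝ k (F (deriv θ) ρ κ) y :=
      ((F_cd (sm_deriv h) ρ κ hA).of_le (by exact_mod_cast le_top)).contDiffAt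
    have c2 : ContDiffAt ℝ k (F θ (ρ - 1) κ) y :=
      ((F_cd h (ρ - 1) κ hA).of_le (by exact_mod_cast le_top)).contDiffAt
    have e : iteratedDeriv k (fun y => F (deriv θ) ρ κ y +
        ((4 * Real.pi ^ 2 * ρ : ℝ) : ℂ) * F θ (ρ - 1) κ y) y
        = iteratedDeriv k (F (deriv θ) ρ κ) y +
          ((4 * Real.pi ^ 2 * ρ : ℝ) : ℂ) * iteratedDeriv k (F θ (ρ - 1) κ) y := by
      rw [iteratedDeriv_fun_add c1 (contDiffAt_const.mul c2), iteratedDeriv_const_mul_field]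
    rw [e]
    refine (norm_add_le _ _).trans ?_
    rw [norm_mul, norm_real, Real.norm_eq_abs]
    gcongr
    · exact h1 κ hA y
    · exact h2 κ hA y

theorem F_cls {a b : ℝ} (ha : -1 ≤ a) (hb : b ≤ 16) {θ : ℝ → ℂ} (h : Sm a b θ) (K : ℕ) (ρ : ℝ) :
    ∃ N : ℝ, 0 < N ∧ ∀ N', N ≤ N' → ∀ κ, Ad a b κ → Cls (-1) 16 N' K (F θ ρ κ) := by
  choose N hN0 hN using fun k => F_bd k a b θ h ρ
  refine ⟨1 + ∑ k ∈ Finset.range (K + 1), N k, by
    have := Finset.sum_nonneg (fun k (_ : k ∈ Finset.range (K + 1)) => hN0 k)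
    linarith, ?_⟩
  intro N' hN' κ hA
  refine ⟨F_cd h ρ κ hA, ?_, ?_⟩
  · intro y hy
    by_contra hc
    apply hy
    have : y ∉ Icc a b := fun hm => hc ⟨ha.trans hm.1, hm.2.trans hb⟩
    exact (F_ev_zero h ρ κ this).eq_of_nhds
  · intro k hk y
    refine (hN k κ hA y).trans (le_trans ?_ hN')
    have := Finset.single_le_sum (fun k (_ : k ∈ Finset.range (K + 1)) => hN0 k)
      (Finset.mem_range.2 (Nat.lt_succ_of_le hk))
    linarith

theorem bump (c r R : ℝ) (hr : 0 < r) (hrR : r < R) : ∃ θ : ℝ → ℂ, Sm (c - R) (c + R) θ ∧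
    ∀ y, c - r ≤ y → y ≤ c + r → θ y = 1 := by
  let f : ContDiffBump c := ⟨r, R, hr, hrR⟩
  refine ⟨fun y => ((f y : ℝ) : ℂ), ⟨ofRealCLM.contDiff.comp f.contDiff, ?_⟩, ?_⟩
  · intro y hy
    have : f y = 0 := by
      apply f.zero_of_le_dist
      by_contra hlt
      rw [not_le, Real.dist_eq, abs_lt] at hlt
      exact hy ⟨by have := hlt.1; simp only [f] at this; linarith,
        by have := hlt.2; simp only [f] at this; linarith⟩
    simp [this]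
  · intro y h1 h2
    have : f y = 1 := by
      apply f.one_of_mem_closedBall
      rw [Metric.mem_closedBall, Real.dist_eq, abs_le]
      simp only [f]
      constructor <;> linarith
    simp [this]

theorem pu2 : S_PU2 := by
  intro K ρ
  obtain ⟨θ₁, hs1, ho1⟩ := bump 2 2 (2 + 1 / 80) (by norm_num) (by norm_num)
  obtain ⟨θ₂, hs2, ho2⟩ := bump (33 / 16) (31 / 16) 2 (by norm_num) (by norm_num)
  obtain ⟨N1, hN1, h1⟩ := F_cls (by norm_num) (by norm_num) hs1 K ρ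
  obtain ⟨N2, hN2, h2⟩ := F_cls (by norm_num) (by norm_num) hs2 K ρ
  have hpi1 : Real.pi ^ 2 ≤ 10 := by
    have := Real.pi_lt_d2
    have h0 := Real.pi_pos
    nlinarith
  have hpi2 : 9 ≤ Real.pi ^ 2 := by
    have := Real.pi_gt_three
    nlinarith
  refine ⟨N1 + N2, by positivity, ⟨F θ₁ ρ 1, h1 _ (by linarith) 1 ⟨?_, le_rfl, by norm_num⟩, ?_⟩, ?_⟩
  · nlinarith
  · intro y hy0 hy4
    rw [F, ho1 y (by linarith) (by linarith), one_mul]
  · intro κ hκ0 hκ1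
    refine ⟨F θ₂ ρ κ, h2 _ (by linarith) κ ⟨?_, hκ1, by norm_num⟩, ?_⟩
    · nlinarith
    · intro y hy0 hy4
      rw [F, ho2 y (by linarith) (by linarith), one_mul]

end Pool.Agent.W382.WV.PU2
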